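import Pool.Agent.W569.FM.Stmts

/-!
Project TF (helper569), TF-TAMEABS: from the finite level to the absolute Galois group.
-/

set_option autoImplicit false

namespace Pool.Agent.W638.FM

open NumberField Pool.Agent.W569.FM

/-- `S_TAMEFIN` with an arbitrary algebra instance -/
theorem tamefin' (h : S_TAMEFIN) (p l : ℕ) (hp : p.Prime) (hl : l.Prime) (hpl : p ≠ l)
    (L : Type) [Field L] [inst : Algebra ℚ L] (hfd : FiniteDimensional ℚ L) (hg : IsGalois ℚ L)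
    (hG : IsPGroup p Gal(L/ℚ)) (P : Ideal (𝓞 L)) (hP : P.IsPrime) (hP0 : P ≠ ⊥)
    (hlP : (l : 𝓞 L) ∈ P) :
    (∀ τ : Gal(L/ℚ), (∀ x : 𝓞 L, τ • x - x ∈ P) → ∀ σ : Gal(L/ℚ),
      (∀ x : 𝓞 L, σ • x - x ^ l ∈ P) → σ * τ * σ⁻¹ = τ ^ l) ∧
    ∃ τ₀ : Gal(L/ℚ), (∀ x : 𝓞 L, τ₀ • x - x ∈ P) ∧
      ∀ τ : Gal(L/ℚ), (∀ x : 𝓞 L, τ • x - x ∈ P) → τ ∈ Subgroup.zpowers τ₀ := by
  have : CharZero L := algebraRat.charZero L
  obtain rfl : inst = DivisionRing.toRatAlgebra := Subsingleton.elim _ _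
  have : NumberField L := ⟨⟩
  exact h p l hp hl hpl L hG P hP hP0 hlP

/-- the inertia group -/
def inertia {F : Type} [Field F] (P : Ideal (OO F)) : Subgroup (GF F) where
  carrier := {σ | InInertia P σ}
  one_mem' := by
    intro x
    simp
  mul_mem' := by
    intro a b ha hb x
    have h1 := ha (b • x)
    have h2 := hb x
    have : (a * b) • x - x = (a • (b • x) - b • x) + (b • x - x) := by
      rw [mul_smul]
      ring
    rw [this]
    exact P.add_mem h1 h2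
  inv_mem' := by
    intro a ha x
    have h1 := ha (a⁻¹ • x)
    rw [smul_inv_smul] at h1
    have : a⁻¹ • x - x = -(x - a⁻¹ • x) := by ring
    rw [this]
    exact P.neg_mem h1

theorem descend {F : Type} [Field F] [CharZero F] (p l : ℕ) (hl : l ≠ 0)
    (fin : ∀ (L : IntermediateField F (AlgebraicClosure F)), FiniteDimensional F L →
      IsGalois F L → IsPGroup p Gal(L/F) → ∀ P : Ideal (𝓞 L), P.IsPrime → P ≠ ⊥ →
      (l : 𝓞 L) ∈ P →
      (∀ τ : Gal(L/F), (∀ x : 𝓞 L, τ • x - x ∈ P) → ∀ σ : Gal(L/F),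
        (∀ x : 𝓞 L, σ • x - x ^ l ∈ P) → σ * τ * σ⁻¹ = τ ^ l) ∧
      ∃ τ₀ : Gal(L/F), (∀ x : 𝓞 L, τ₀ • x - x ∈ P) ∧
        ∀ τ : Gal(L/F), (∀ x : 𝓞 L, τ • x - x ∈ P) → τ ∈ Subgroup.zpowers τ₀)
    (E : Type) [Group E] (hE : IsPGroup p E) (f : GF F →* E) (hf : IsOpen (f.ker : Set (GF F)))
    (P : Ideal (OO F)) (hP : P.IsPrime) (hlP : (l : OO F) ∈ P) :
    (∀ τ : GF F, InInertia P τ → ∀ σ : GF F, FrobAt l P σ → f (σ * τ * σ⁻¹) = f τ ^ l) ∧
    ∃ τ₀ : GF F, InInertia P τ₀ ∧ ∀ τ : GF F, InInertia P τ → f τ ∈ Subgroup.zpowers (f τ₀) := by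
  classical
  -- the kernel as a closed subgroup
  let H : ClosedSubgroup (GF F) := ⟨f.ker, f.ker.isClosed_of_isOpen hf⟩
  let L : IntermediateField F (AlgebraicClosure F) := IntermediateField.fixedField H.1
  have hfix : L.fixingSubgroup = f.ker := InfiniteGalois.fixingSubgroup_fixedField H
  have hfin : FiniteDimensional F L := by
    rw [← InfiniteGalois.isOpen_iff_finite]
    rw [show L.fixingSubgroup.carrier = (f.ker : Set (GF F)) from by rw [hfix]; rfl]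
    exact hf
  have hgal : IsGalois F L := by
    rw [← InfiniteGalois.normal_iff_isGalois, hfix]
    exact f.normal_ker
  let R : GF F →* Gal(L/F) := AlgEquiv.restrictNormalHom L
  have hR : Function.Surjective R := AlgEquiv.restrictNormalHom_surjective (AlgebraicClosure F)
  have hker : R.ker = f.ker := by
    rw [← hfix]
    exact IntermediateField.restrictNormalHom_ker L
  have hRf : ∀ g : GF F, R g = 1 ↔ f g = 1 := by
    intro g
    rw [← MonoidHom.mem_ker, ← MonoidHom.mem_ker, hker]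
  have hRf2 : ∀ g g' : GF F, R g = R g' → f g = f g' := by
    intro g g' hh
    have h1 : R (g * g'⁻¹) = 1 := by rw [map_mul, map_inv, hh, mul_inv_cancel]
    rw [hRf, map_mul, map_inv] at h1
    exact mul_inv_eq_one.1 h1
  have hpG : IsPGroup p Gal(L/F) := by
    intro g
    obtain ⟨g', rfl⟩ := hR g
    obtain ⟨k, hk⟩ := hE (f g')
    refine ⟨k, ?_⟩
    rw [← map_pow, hRf, map_pow]
    exact hk
  -- the prime ideal below
  let P₀ : Ideal (𝓞 L) := P.comap (algebraMap (𝓞 L) (OO F))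
  have hmem : ∀ x : 𝓞 L, x ∈ P₀ ↔ algebraMap (𝓞 L) (OO F) x ∈ P := fun x => Iff.rfl
  have hP₀ : P₀.IsPrime := by
    exact Ideal.comap_isPrime _ _
  have hl0 : (l : 𝓞 L) ∈ P₀ := by
    rw [hmem, map_natCast]
    exact hlP
  have hP₀b : P₀ ≠ ⊥ := by
    intro hb
    rw [hb, Ideal.mem_bot] at hl0
    have : (l : 𝓞 L) ≠ 0 := by
      exact_mod_cast hl
    exact this hl0
  have hcomm : ∀ (g : GF F) (x : 𝓞 L),
      algebraMap (𝓞 L) (OO F) (R g • x) = g • algebraMap (𝓞 L) (OO F) x := by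
    intro g x
    apply RingOfIntegers.ext
    exact AlgEquiv.restrictNormal_commutes g L (x : L)
  have hin : ∀ τ : GF F, InInertia P τ → ∀ x : 𝓞 L, R τ • x - x ∈ P₀ := by
    intro τ hτ x
    rw [hmem, map_sub, hcomm]
    exact hτ _
  have hfr : ∀ σ : GF F, FrobAt l P σ → ∀ x : 𝓞 L, R σ • x - x ^ l ∈ P₀ := by
    intro σ hσ x
    rw [hmem, map_sub, hcomm, map_pow]
    exact hσ _
  obtain ⟨h1, τ₁, hτ₁, h2⟩ := fin L hfin hgal hpG P₀ hP₀ hP₀b hl0
  refine ⟨?_, ?_⟩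
  · intro τ hτ σ hσ
    have h3 := h1 (R τ) (hin τ hτ) (R σ) (hfr σ hσ)
    rw [← map_inv, ← map_mul, ← map_mul, ← map_pow] at h3
    rw [hRf2 _ _ h3, map_pow]
  · -- the image of the inertia group is cyclic
    let I : Subgroup Gal(L/F) := (inertia P).map R
    have hI : I ≤ Subgroup.zpowers τ₁ := by
      rintro _ ⟨τ, hτ, rfl⟩
      exact h2 _ (hin τ hτ)
    have hc : IsCyclic I := by
      have : IsCyclic (Subgroup.zpowers τ₁) := inferInstance
      exact isCyclic_of_injective (Subgroup.inclusion hI) (Subgroup.inclusion_injective hI)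
    obtain ⟨⟨γ, hγ⟩, hgen⟩ := hc.exists_generator
    obtain ⟨τ₀, hτ₀, rfl⟩ := hγ
    refine ⟨τ₀, hτ₀, fun τ hτ => ?_⟩
    have h3 := hgen ⟨R τ, ⟨τ, hτ, rfl⟩⟩
    rw [Subgroup.mem_zpowers_iff] at h3 ⊢
    obtain ⟨k, hk⟩ := h3
    refine ⟨k, ?_⟩
    have h4 : R τ₀ ^ k = R τ := by
      have := congrArg Subtype.val hk
      simpa using this
    rw [← map_zpow] at h4 ⊢
    exact hRf2 _ _ h4

theorem main (h : S_TAMEFIN) : S_TAME := by
  intro p l hp hl hpl E _ _ hE f hf P hP hlP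
  refine descend p l hl.ne_zero ?_ E hE f hf P hP.isPrime hlP
  intro L hfd hg hG P₀ hP₀ hb hlP₀
  exact @tamefin' h p l hp hl hpl L _ _ hfd hg hG P₀ hP₀ hb hlP₀

end Pool.Agent.W638.FM
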